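import Pool.Agent.H277.MUCount

set_option autoImplicit false

open Topology Pointwise

namespace Pool.Agent.H277.MU

variable {E : Type*} [NormedAddCommGroup E] [Module ℝ E] [ContinuousSMul ℝ E]

theorem orb_isVonNBounded [LocallyConvexSpace ℝ E] (x : E) :
    Bornology.IsVonNBounded ℝ (orb x) := by
  rw [(nhds_hasBasis_absConvex ℝ E).isVonNBounded_iff]
  rintro U ⟨hU, hUc⟩
  change Absorbs ℝ U (orb x)
  obtain ⟨ε, hε, hball⟩ := Metric.mem_nhds_iff.mp hU
  -- choose n with ‖(1/n) x‖ < ε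
  have hlim : Filter.Tendsto (fun n : ℕ => ((1 : ℝ) / ((n : ℝ) + 1)) • x) Filter.atTop (𝓝 0) := by
    have h1 : Filter.Tendsto (fun n : ℕ => (1 : ℝ) / ((n : ℝ) + 1)) Filter.atTop (𝓝 0) :=
      tendsto_one_div_add_atTop_nhds_zero_nat
    have := h1.smul_const x
    simpa using this
  obtain ⟨n, hn⟩ := (hlim.eventually (Metric.ball_mem_nhds (0 : E) hε)).exists
  rw [dist_zero_right] at hn
  set y : E := ((1 : ℝ) / ((n : ℝ) + 1)) • x with hy
  have hxy : ((n + 1 : ℕ) : ℝ) • y = x := by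
    rw [hy, smul_smul]
    have : ((n + 1 : ℕ) : ℝ) * (1 / ((n : ℝ) + 1)) = 1 := by
      push_cast
      field_simp
    rw [this, one_smul]
  have hmem : ∀ k : E → E, IsIso0 k → ∀ m : ℕ, k ((m : ℝ) • y) ∈ (m : ℝ) • U := by
    intro k hk m
    induction m with
    | zero =>
      have h0U : (0 : E) ∈ U := mem_of_mem_nhds hU
      simp only [Nat.cast_zero, zero_smul, hk.zero]
      rw [Set.zero_smul_set ⟨0, h0U⟩]
      rfl
    | succ m ih =>
      have h1 : ((m + 1 : ℕ) : ℝ) • U = (m : ℝ) • U + (1 : ℝ) • U := by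
        rw [Nat.cast_succ]
        exact hUc.2.add_smul (by positivity) (by norm_num)
      rw [h1]
      refine ⟨k ((m : ℝ) • y), ih, k (((m + 1 : ℕ) : ℝ) • y) - k ((m : ℝ) • y), ?_, by abel_nf⟩
      rw [one_smul]
      apply hball
      rw [mem_ball_zero_iff, hk.norm_sub]
      have : ((m + 1 : ℕ) : ℝ) • y - (m : ℝ) • y = y := by
        rw [← sub_smul]; simp
      rwa [this]
  -- absorb
  have hsub : orb x ⊆ ((n + 1 : ℕ) : ℝ) • U := by
    rintro _ ⟨k, hk, rfl⟩
    have := hmem k hk (n + 1)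
    rwa [hxy] at this
  have habs : Absorbs ℝ U (((n + 1 : ℕ) : ℝ) • U) := by
    rw [absorbs_iff_norm]
    refine ⟨((n + 1 : ℕ) : ℝ), fun a ha => ?_⟩
    refine hUc.1.smul_mono ?_
    rw [Real.norm_of_nonneg (by positivity)]
    exact ha
  exact habs.mono_right hsub

end Pool.Agent.H277.MU
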