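import Pool.Agent.H277.NASlice

set_option autoImplicit false

open Topology Pointwise Set

namespace Pool.Agent.H277.NA

/-- A small slice gives a point which is almost not a midpoint. -/
theorem mid_of_slice {E : Type*} [NormedAddCommGroup E] [Module ℝ E] {T : Set E}
    (φ : E →ₗ[ℝ] ℝ) {M : ℝ} (hM : ∀ t ∈ T, φ t ≤ M) {α ε : ℝ} (hne : ∃ t ∈ T, α < φ t)
    (hs : ∀ x ∈ T, ∀ y ∈ T, α < φ x → α < φ y → ‖x - y‖ < ε) :
    ∃ x' ∈ T, ∀ t ∈ T, x' + x' - t ∈ T → ‖t - x'‖ < ε := by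
  obtain ⟨t0, ht0, hαt0⟩ := hne
  have hbdd : BddAbove (φ '' T) := ⟨M, by rintro _ ⟨t, ht, rfl⟩; exact hM t ht⟩
  set S := sSup (φ '' T) with hS
  have hle : ∀ t ∈ T, φ t ≤ S := fun t ht => le_csSup hbdd ⟨t, ht, rfl⟩
  have hαS : α < S := lt_of_lt_of_le hαt0 (hle t0 ht0)
  obtain ⟨_, ⟨x', hx', rfl⟩, hx's⟩ :=
    exists_lt_of_lt_csSup (s := φ '' T) ⟨_, ⟨t0, ht0, rfl⟩⟩ (show (α + S) / 2 < S by linarith)
  refine ⟨x', hx', fun t ht h2 => ?_⟩
  have h1 := hle _ h2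
  rw [map_sub, map_add] at h1
  exact hs t ht x' hx' (by linarith) (by linarith)

/-- The general lemma: bounded sets with `W`-compact closed convex hull. -/
theorem mid_of_compact {E : Type*} [NormedAddCommGroup E] [Module ℝ E] [ContinuousSMul ℝ E]
    {W : Type*} [AddCommGroup W] [Module ℝ W] [TopologicalSpace W]
    [IsTopologicalAddGroup W] [ContinuousSMul ℝ W] [LocallyConvexSpace ℝ W] [T2Space W]
    (ι : E →ₗ[ℝ] W) (hι : Function.Injective ι)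
    (hB : ∀ U ∈ 𝓝 (0 : E), ∃ V ∈ 𝓝 (0 : E), V ⊆ U ∧ AbsConvex ℝ V ∧ IsClosed (ι '' V))
    {T : Set E} (hTn : T.Nonempty) (hTb : Bornology.IsVonNBounded ℝ T)
    (hcomp : IsCompact (closure (convexHull ℝ (ι '' T))))
    (hran : closure (convexHull ℝ (ι '' T)) ⊆ range ι)
    (hsep : TopologicalSpace.IsSeparable (ι ⁻¹' (closure (convexHull ℝ (ι '' T)))))
    {ε : ℝ} (hε : 0 < ε) :
    ∃ x' ∈ T, ∀ t ∈ T, x' + x' - t ∈ T → ‖t - x'‖ < ε := by
  set C := closure (convexHull ℝ (ι '' T)) with hC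
  have hCc : Convex ℝ C := (convex_convexHull ℝ _).closure
  have hTC : ∀ t ∈ T, ι t ∈ C := fun t ht =>
    subset_closure (subset_convexHull ℝ _ ⟨t, ht, rfl⟩)
  have hCne : C.Nonempty := hTn.elim fun t ht => ⟨ι t, hTC t ht⟩
  obtain ⟨V, hV, hVU, hVac, hVcl⟩ := hB _ (Metric.ball_mem_nhds (0 : E) (show 0 < ε / 4 by positivity))
  have hVc : Convex ℝ (ι '' V) := hVac.2.linear_image ι
  have h0V : (0 : E) ∈ V := mem_of_mem_nhds hV
  have h0 : (0 : W) ∈ ι '' V := ⟨0, h0V, map_zero ι⟩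
  have hVneg : ∀ v ∈ V, -v ∈ V := fun v hv => hVac.1.neg_mem_iff.mpr hv
  -- dense sequence
  obtain ⟨c, hcc, hcs⟩ := hsep
  have hcne : c.Nonempty := by
    by_contra h
    rw [not_nonempty_iff_eq_empty] at h
    rw [h, closure_empty] at hcs
    obtain ⟨t, ht⟩ := hTn
    exact hcs (hTC t ht)
  obtain ⟨w, hw⟩ := hcc.exists_eq_range hcne
  have hcov : ∀ x ∈ C, ∃ n, x - ι (w n) ∈ ι '' V := by
    intro x hx
    obtain ⟨y, rfl⟩ := hran hx
    have hy : y ∈ closure c := hcs hx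
    have hyV : {z | y - z ∈ V} ∈ 𝓝 y := by
      have : Filter.Tendsto (fun z => y - z) (𝓝 y) (𝓝 (y - y)) :=
        (continuous_const.sub continuous_id).tendsto y
      rw [sub_self] at this
      exact this hV
    obtain ⟨z, hz1, hz2⟩ := mem_closure_iff_nhds.mp hy _ hyV
    rw [hw] at hz2
    obtain ⟨n, rfl⟩ := hz2
    exact ⟨n, y - w n, hz1, map_sub ι _ _⟩
  -- boundedness
  obtain ⟨n, hn⟩ : ∃ n : ℕ, T ⊆ ((n : ℝ) + 1) • V := by
    have := hTb hV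
    rw [absorbs_iff_norm] at this
    obtain ⟨r, hr⟩ := this
    obtain ⟨n, hn⟩ := exists_nat_ge r
    refine ⟨n, hr _ ?_⟩
    rw [Real.norm_of_nonneg (by positivity)]
    linarith
  have hnpos : (0 : ℝ) < (n : ℝ) + 1 := by positivity
  have hCV : ∀ x ∈ C, ∃ v ∈ V, x = ((n : ℝ) + 1) • ι v := by
    have hcl : IsClosed (((n : ℝ) + 1) • (ι '' V)) := hVcl.smul_of_ne_zero hnpos.ne'
    have hcv : Convex ℝ (((n : ℝ) + 1) • (ι '' V)) := hVc.smul _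
    have hsub : C ⊆ ((n : ℝ) + 1) • (ι '' V) := by
      refine closure_minimal (convexHull_min ?_ hcv) hcl
      rintro _ ⟨t, ht, rfl⟩
      obtain ⟨v, hv, rfl⟩ := hn ht
      exact ⟨ι v, ⟨v, hv, rfl⟩, (map_smul ι _ _).symm⟩
    intro x hx
    obtain ⟨_, ⟨v, hv, rfl⟩, rfl⟩ := hsub hx
    exact ⟨v, hv, rfl⟩
  have hrV : ∀ a ∈ C, ∀ b ∈ C, (1 / (2 * ((n : ℝ) + 1))) • (a - b) ∈ ι '' V := by
    intro a ha b hb
    obtain ⟨v, hv, rfl⟩ := hCV a ha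
    obtain ⟨v', hv', rfl⟩ := hCV b hb
    refine ⟨(1 / 2 : ℝ) • v + (1 / 2 : ℝ) • (-v'), hVac.2 hv (hVneg _ hv') (by norm_num)
      (by norm_num) (by norm_num), ?_⟩
    rw [← smul_sub, smul_smul]
    have : 1 / (2 * ((n : ℝ) + 1)) * ((n : ℝ) + 1) = 1 / 2 := by field_simp
    rw [this, map_add, map_smul, map_smul, map_neg, smul_sub, smul_neg, sub_eq_add_neg]
  obtain ⟨ξ, α, w0, ⟨x, hxC, hαx⟩, hsl⟩ := small_slice hcomp hCc hCne hVc hVcl h0
    (fun n => ι (w n)) hcov (r := 1 / (2 * ((n : ℝ) + 1))) (by positivity)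
    (by rw [div_lt_one (by positivity)]; linarith) hrV
  -- bounded above
  obtain ⟨M, hM⟩ : ∃ M, ∀ x ∈ C, ξ x ≤ M := by
    have := (hcomp.image ξ.continuous).bddAbove
    obtain ⟨M, hM⟩ := this
    exact ⟨M, fun x hx => hM ⟨x, hx, rfl⟩⟩
  refine mid_of_slice (ξ.toLinearMap ∘ₗ ι) (M := M) (fun t ht => hM _ (hTC t ht)) (α := α) ?_ ?_
  · by_contra hcon
    push Not at hcon
    have hsub : C ⊆ {y | ξ y ≤ α} := by
      refine closure_minimal (convexHull_min ?_ ?_) (isClosed_le ξ.continuous continuous_const)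
      · rintro _ ⟨t, ht, rfl⟩
        exact hcon t ht
      · exact (convex_Iic α).linear_preimage ξ.toLinearMap
    exact absurd (hsub hxC) (not_le.mpr hαx)
  · intro x hx y hy hαx hαy
    obtain ⟨_, ⟨a, ha, rfl⟩, _, ⟨b, hb, rfl⟩, hab⟩ := hsl (ι x) (hTC x hx) hαx
    obtain ⟨_, ⟨c', hc', rfl⟩, _, ⟨d, hd, rfl⟩, hcd⟩ := hsl (ι y) (hTC y hy) hαy
    have hab' : ι a + ι b = ι x - w0 := hab
    have hcd' : ι c' + ι d = ι y - w0 := hcd
    have hxy : x - y = (a + b) - (c' + d) := by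
      apply hι
      rw [map_sub, map_sub, map_add, map_add, hab', hcd']
      abel
    rw [hxy]
    have hb' : ∀ v ∈ V, ‖v‖ < ε / 4 := fun v hv => mem_ball_zero_iff.mp (hVU hv)
    calc ‖a + b - (c' + d)‖ ≤ ‖a + b‖ + ‖c' + d‖ := norm_sub_le _ _
      _ ≤ (‖a‖ + ‖b‖) + (‖c'‖ + ‖d‖) := add_le_add (norm_add_le _ _) (norm_add_le _ _)
      _ < ε := by linarith [hb' a ha, hb' b hb, hb' c' hc', hb' d hd]

end Pool.Agent.H277.NA
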