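import Pool.Agent.H277.MUBdd
import Pool.Agent.H277.NAMid

set_option autoImplicit false

open Topology Pointwise Set

namespace Pool.Agent.H277.MU

variable {E : Type*} [NormedAddCommGroup E] [Module ℝ E] [ContinuousSMul ℝ E]

/-- the property used on bounded countable sets -/
def MidDent (E : Type*) [NormedAddCommGroup E] [Module ℝ E] : Prop :=
  ∀ T : Set E, T.Countable → T.Nonempty → Bornology.IsVonNBounded ℝ T → ∀ ε : ℝ, 0 < ε →
    ∃ x' ∈ T, ∀ t ∈ T, x' + x' - t ∈ T → ‖t - x'‖ < ε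

theorem linear_of_midDent [LocallyConvexSpace ℝ E] (hE : MidDent E)
    {F : Type*} [NormedAddCommGroup F] [Module ℝ F] [ContinuousSMul ℝ F]
    (f : E → F) (hf : Isometry f) (hs : Function.Surjective f) (h0 : f 0 = 0) :
    ∃ g : E →ₗ[ℝ] F, ∀ x : E, g x = f x :=
  core_count (fun x T hT hTc hTn ε hε =>
    hE T hTc hTn ((orb_isVonNBounded x).subset hT) ε hε) f hf hs h0

omit [ContinuousSMul ℝ E] in
/-- dentability implies the property -/
theorem midDent_of_dentable
    (hE : ∀ T : Set E, T.Nonempty → Bornology.IsVonNBounded ℝ T → ∀ ε : ℝ, 0 < ε →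
      ∃ (φ : E →L[ℝ] ℝ) (α : ℝ), (∃ x ∈ T, α < φ x) ∧
        ∀ x ∈ T, ∀ y ∈ T, α < φ x → α < φ y → ‖x - y‖ < ε) : MidDent E := by
  intro T _ hTn hTb ε hε
  obtain ⟨φ, α, hne, hs⟩ := hE T hTn hTb ε hε
  obtain ⟨M, hM⟩ : ∃ M, ∀ t ∈ T, φ t ≤ M := by
    have h1 : Bornology.IsVonNBounded ℝ (φ '' T) := hTb.image φ
    rw [NormedSpace.isVonNBounded_iff] at h1
    obtain ⟨M, hM⟩ := h1.bddAbove
    exact ⟨M, fun t ht => hM ⟨t, ht, rfl⟩⟩
  exact NA.mid_of_slice φ.toLinearMap hM hne hs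

omit [ContinuousSMul ℝ E] in
/-- no bounded dyadic tree implies the property -/
theorem midDent_of_noTree
    (hE : ∀ ε : ℝ, 0 < ε → ∀ x : List Bool → E, Bornology.IsVonNBounded ℝ (range x) →
      (∀ l, x (true :: l) + x (false :: l) = x l + x l) →
      ∃ l, ‖x (true :: l) - x l‖ < ε) : MidDent E := by
  intro T _ hTn hTb ε hε
  by_contra hcon
  push Not at hcon
  have h1 : ∀ y : T, ∃ t : T, ∃ s : T, (s : E) = y + y - t ∧ ε ≤ ‖(t : E) - y‖ := by
    rintro ⟨y, hy⟩
    obtain ⟨t, ht, h2, h3⟩ := hcon y hy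
    exact ⟨⟨t, ht⟩, ⟨_, h2⟩, rfl, h3⟩
  choose a b hab hε' using h1
  obtain ⟨t0, ht0⟩ := hTn
  let x : List Bool → T := fun l => l.foldr (fun i y => if i then a y else b y) ⟨t0, ht0⟩
  obtain ⟨l, hl⟩ := hE ε hε (fun l => (x l : E))
    (hTb.subset (by rintro _ ⟨l, rfl⟩; exact (x l).2))
    (by
      intro l
      change ((a (x l) : T) : E) + ((b (x l) : T) : E) = _
      rw [hab]
      abel)
  exact absurd hl (not_lt.mpr (hε' (x l)))

theorem isVonNBounded_convexHull [LocallyConvexSpace ℝ E] {T : Set E}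
    (hT : Bornology.IsVonNBounded ℝ T) : Bornology.IsVonNBounded ℝ (convexHull ℝ T) := by
  rw [(nhds_hasBasis_absConvex ℝ E).isVonNBounded_iff]
  rintro U ⟨hU, hUc⟩
  change Absorbs ℝ U (convexHull ℝ T)
  have h1 : Absorbs ℝ U T := hT hU
  rw [absorbs_iff_norm] at h1 ⊢
  obtain ⟨r, hr⟩ := h1
  exact ⟨r, fun c hc => convexHull_min (hr c hc) (hUc.2.smul c)⟩

/-- semireflexive spaces -/
theorem midDent_of_weaklyCompact [LocallyConvexSpace ℝ E]
    (hE : ∀ B : Set E, Bornology.IsVonNBounded ℝ B →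
      IsCompact (closure (toWeakSpace ℝ E '' B))) : MidDent E := by
  intro T hTc hTn hTb ε hε
  have hcl : closure (convexHull ℝ ((toWeakSpace ℝ E).toLinearMap '' T)) =
      toWeakSpace ℝ E '' closure (convexHull ℝ T) := by
    rw [(convex_convexHull ℝ T).toWeakSpace_closure ℝ,
      ← LinearMap.image_convexHull]
    rfl
  have hLC : LocallyConvexSpace ℝ (WeakSpace ℝ E) :=
    WeakBilin.locallyConvexSpace (B := (topDualPairing ℝ E).flip)
  refine NA.mid_of_compact (W := WeakSpace ℝ E) (toWeakSpace ℝ E).toLinearMap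
    (toWeakSpace ℝ E).injective ?_ hTn hTb ?_ ?_ ?_ hε
  · intro U hU
    obtain ⟨V, ⟨hV, hVcl, hVac⟩, hVU⟩ := (nhds_hasBasis_absConvex_closed ℝ E).mem_iff.mp hU
    refine ⟨V, hV, hVU, hVac, ?_⟩
    have := hVac.2.toWeakSpace_closure ℝ
    rw [hVcl.closure_eq] at this
    change IsClosed (toWeakSpace ℝ E '' V)
    rw [this]
    exact isClosed_closure
  · have h := hE _ (isVonNBounded_convexHull hTb)
    rw [← (convex_convexHull ℝ T).toWeakSpace_closure ℝ] at h
    rw [hcl]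
    exact h
  · intro y _
    exact ⟨(toWeakSpace ℝ E).symm y, by simp⟩
  · rw [hcl]
    have h2 : (toWeakSpace ℝ E).toLinearMap ⁻¹' (toWeakSpace ℝ E '' closure (convexHull ℝ T)) =
        closure (convexHull ℝ T) := by
      exact preimage_image_eq _ (toWeakSpace ℝ E).injective
    rw [h2]
    refine TopologicalSpace.IsSeparable.closure ?_
    have h3 : TopologicalSpace.IsSeparable (Submodule.span ℝ T : Set E) :=
      TopologicalSpace.IsSeparable.span hTc.isSeparable
    exact h3.mono (convexHull_min Submodule.subset_span (Submodule.convex _))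

/-- separable spaces with a coarser topology for which bounded sets are relatively compact -/
theorem midDent_of_coarser [TopologicalSpace.SeparableSpace E]
    {W : Type*} [AddCommGroup W] [Module ℝ W] [TopologicalSpace W]
    [IsTopologicalAddGroup W] [ContinuousSMul ℝ W] [LocallyConvexSpace ℝ W] [T2Space W]
    (e : E ≃ₗ[ℝ] W)
    (hB : ∀ U ∈ 𝓝 (0 : E), ∃ V ∈ 𝓝 (0 : E), V ⊆ U ∧ AbsConvex ℝ V ∧ IsClosed (e '' V))
    (hK : ∀ B : Set E, Bornology.IsVonNBounded ℝ B → IsCompact (closure (e '' B))) :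
    MidDent E := by
  have hLC : LocallyConvexSpace ℝ E := by
    refine LocallyConvexSpace.ofBasisZero ℝ E (fun s : Set E => s)
      (fun s => s ∈ 𝓝 (0 : E) ∧ AbsConvex ℝ s) ?_ (fun s hs => hs.2.2)
    refine ⟨fun t => ⟨fun ht => ?_, fun ⟨s, hs, hst⟩ => Filter.mem_of_superset hs.1 hst⟩⟩
    obtain ⟨V, hV, hVU, hVac, -⟩ := hB t ht
    exact ⟨V, ⟨hV, hVac⟩, hVU⟩
  intro T hTc hTn hTb ε hε
  refine NA.mid_of_compact (W := W) e.toLinearMap e.injective hB hTn hTb ?_ ?_ ?_ hε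
  · have h := hK _ (isVonNBounded_convexHull hTb)
    rw [← LinearMap.image_convexHull]
    exact h
  · intro y _
    exact ⟨e.symm y, by simp⟩
  · exact TopologicalSpace.IsSeparable.of_separableSpace _

end Pool.Agent.H277.MU
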