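import Mathlib

set_option autoImplicit false

namespace Pool.Agent.H277.MU

/-- `κ` is a bijective isometry of `E` onto `F` sending `0` to `0`; we use plain functions. -/
structure IsIso0 {E F : Type*} [NormedAddCommGroup E] [NormedAddCommGroup F] (f : E → F) : Prop where
  iso : Isometry f
  surj : Function.Surjective f
  zero : f 0 = 0

section basic

variable {E F G : Type*} [NormedAddCommGroup E] [NormedAddCommGroup F] [NormedAddCommGroup G]

theorem IsIso0.norm_sub {f : E → F} (hf : IsIso0 f) (x y : E) : ‖f x - f y‖ = ‖x - y‖ := by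
  rw [← dist_eq_norm, ← dist_eq_norm]
  exact hf.iso.dist_eq x y

theorem IsIso0.norm_eq {f : E → F} (hf : IsIso0 f) (x : E) : ‖f x‖ = ‖x‖ := by
  have h := hf.norm_sub x 0
  rwa [hf.zero, sub_zero, sub_zero] at h

theorem IsIso0.inj {f : E → F} (hf : IsIso0 f) : Function.Injective f := hf.iso.injective

theorem IsIso0.comp {f : E → F} {g : F → G} (hg : IsIso0 g) (hf : IsIso0 f) :
    IsIso0 (fun x => g (f x)) :=
  ⟨hg.iso.comp hf.iso, hg.surj.comp hf.surj, by simp [hf.zero, hg.zero]⟩

theorem IsIso0.id : IsIso0 (fun x : E => x) :=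
  ⟨isometry_id, Function.surjective_id, rfl⟩

/-- every such map has an inverse of the same kind -/
theorem IsIso0.exists_inv {f : E → F} (hf : IsIso0 f) :
    ∃ g : F → E, IsIso0 g ∧ (∀ x, g (f x) = x) ∧ (∀ y, f (g y) = y) := by
  choose g hg using hf.surj
  have hgf : ∀ x, g (f x) = x := fun x => hf.inj (hg (f x))
  refine ⟨g, ⟨?_, fun x => ⟨f x, hgf x⟩, ?_⟩, hgf, hg⟩
  · refine Isometry.of_dist_eq fun a b => ?_
    rw [← hf.iso.dist_eq, hg, hg]
  · have := hgf 0
    rwa [hf.zero] at this

/-- difference maps -/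
theorem IsIso0.diff {f : E → F} (hf : IsIso0 f) (u : E) : IsIso0 (fun h => f (u + h) - f u) := by
  refine ⟨?_, ?_, by simp⟩
  · refine Isometry.of_dist_eq fun a b => ?_
    rw [dist_eq_norm, dist_eq_norm]
    have : f (u + a) - f u - (f (u + b) - f u) = f (u + a) - f (u + b) := by abel
    rw [this, hf.norm_sub]
    congr 1
    abel
  · intro y
    obtain ⟨x, hx⟩ := hf.surj (y + f u)
    refine ⟨x - u, ?_⟩
    simp [hx]

/-- point reflection conjugate: for `f` as above and any `x`, the map
`u ↦ f⁻¹ (f (2x) - f (2x - u))` is a self-isometry fixing `0` and `2x` -/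
theorem exists_kappa {f : E → F} (hf : IsIso0 f) (x : E) :
    ∃ κ : E → E, IsIso0 κ ∧ κ (x + x) = x + x ∧
      (∀ u, f (κ u) = f (x + x) - f (x + x - u)) := by
  obtain ⟨g, hg, hgf, hfg⟩ := hf.exists_inv
  refine ⟨fun u => g (f (x + x) - f (x + x - u)), ⟨?_, ?_, ?_⟩, ?_, ?_⟩
  · refine Isometry.of_dist_eq fun a b => ?_
    rw [hg.iso.dist_eq, dist_eq_norm, dist_eq_norm]
    have : f (x + x) - f (x + x - a) - (f (x + x) - f (x + x - b))
        = f (x + x - b) - f (x + x - a) := by abel
    rw [this, hf.norm_sub]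
    congr 1
    abel
  · intro y
    refine ⟨x + x - g (f (x + x) - f y), ?_⟩
    simp [hfg, hgf]
  · simp [hg.zero]
  · simp [hf.zero, hgf]
  · intro u
    exact hfg _

end basic

section core

variable {E : Type*} [NormedAddCommGroup E]

/-- The orbit of `x` under the surjective self-isometries of `E` fixing `0`. -/
def orb (x : E) : Set E := {y | ∃ k : E → E, IsIso0 k ∧ k x = y}

theorem mem_orb_self (x : E) : x ∈ orb x := ⟨fun x => x, IsIso0.id, rfl⟩

/-- `x'` is `ε`-fixed: every surjective self-isometry fixing `0` and `2 x'` moves `x'` by less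
than `ε`. -/
def NearlyFixed (ε : ℝ) (x : E) : Prop :=
  ∀ κ : E → E, IsIso0 κ → κ (x + x) = x + x → ‖κ x - x‖ < ε

theorem double_of_nearlyFixed {F : Type*} [NormedAddCommGroup F] {ε : ℝ} {x : E}
    (hx : NearlyFixed ε x) {f : E → F} (hf : IsIso0 f) :
    ‖f (x + x) - (f x + f x)‖ < ε := by
  obtain ⟨κ, hκ, hκ2, hκf⟩ := exists_kappa hf x
  have h1 : ‖κ x - x‖ < ε := hx κ hκ hκ2
  rw [← hf.norm_sub, hκf x] at h1
  have h2 : f (x + x) - f (x + x - x) - f x = f (x + x) - (f x + f x) := by
    rw [add_sub_cancel_right]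
    abel
  rwa [h2] at h1

theorem double_eq {F : Type*} [NormedAddCommGroup F]
    (hE : ∀ x : E, ∀ ε > 0, ∃ x' ∈ orb x, NearlyFixed ε x')
    {f : E → F} (hf : IsIso0 f) (x : E) : f (x + x) = f x + f x := by
  have key : ∀ ε > 0, ‖f (x + x) - (f x + f x)‖ ≤ 2 * ε := by
    intro ε hε
    obtain ⟨x', ⟨k, hk, rfl⟩, hx'⟩ := hE x ε hε
    obtain ⟨j, hj, hjk, hkj⟩ := hk.exists_inv
    have h1 := double_of_nearlyFixed hx' hj
    have h2 := double_of_nearlyFixed hx' (hf.comp hj)
    simp only [hjk] at h1 h2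
    have h3 : ‖f (x + x) - f (j (k x + k x))‖ < ε := by
      rw [hf.norm_sub, norm_sub_rev]
      exact h1
    calc ‖f (x + x) - (f x + f x)‖
        = ‖(f (x + x) - f (j (k x + k x))) + (f (j (k x + k x)) - (f x + f x))‖ := by
          congr 1; abel
      _ ≤ ‖f (x + x) - f (j (k x + k x))‖ + ‖f (j (k x + k x)) - (f x + f x)‖ :=
          norm_add_le _ _
      _ ≤ 2 * ε := by linarith
  have h0 : ‖f (x + x) - (f x + f x)‖ ≤ 0 := by
    refine le_of_forall_pos_le_add fun ε hε => ?_
    have := key (ε / 2) (by positivity)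
    linarith
  have := norm_le_zero_iff.mp h0
  exact sub_eq_zero.mp this

end core

section linear

variable {E F : Type*} [NormedAddCommGroup E] [Module ℝ E] [ContinuousSMul ℝ E]
  [NormedAddCommGroup F] [Module ℝ F] [ContinuousSMul ℝ F]

/-- Core theorem. -/
theorem core (hE : ∀ x : E, ∀ ε > 0, ∃ x' ∈ orb x, NearlyFixed ε x')
    (f : E → F) (hf : Isometry f) (hs : Function.Surjective f) (h0 : f 0 = 0) :
    ∃ g : E →ₗ[ℝ] F, ∀ x : E, g x = f x := by
  have hF : IsIso0 f := ⟨hf, hs, h0⟩
  have hdouble : ∀ x, f (x + x) = f x + f x := fun x => double_eq hE hF x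
  have hadd : ∀ a b, f (a + b) = f a + f b := by
    intro a b
    set h : E := (1 / 2 : ℝ) • (b - a) with hh
    have hhh : h + h = b - a := by
      rw [hh, ← add_smul]; norm_num
    have h1 := double_eq hE (hF.diff a) h
    rw [hhh] at h1
    have h2 : f b = f (a + h) + f (a + h) - f a := by
      have : a + (b - a) = b := by abel
      rw [this] at h1
      calc f b = (f b - f a) + f a := by abel
        _ = _ := by rw [h1]; abel
    have h3 : a + b = (a + h) + (a + h) := by
      calc a + b = a + a + (b - a) := by abel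
        _ = a + a + (h + h) := by rw [hhh]
        _ = _ := by abel
    rw [h3, hdouble, h2]
    abel
  let φ : E →+ F := { toFun := f, map_zero' := h0, map_add' := hadd }
  have hφ : Continuous φ := hf.continuous
  exact ⟨(φ.toRealLinearMap hφ : E →L[ℝ] F), fun x => rfl⟩

end linear

end Pool.Agent.H277.MU
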