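import Pool.Agent.H277.MUCore

set_option autoImplicit false

namespace Pool.Agent.H277.MU

section count

variable {E : Type*} [NormedAddCommGroup E]

/-- the conjugate map `u ↦ 2x - κ (2x - u)` -/
theorem IsIso0.conj {κ : E → E} (hκ : IsIso0 κ) {x : E} (h2 : κ (x + x) = x + x) :
    IsIso0 (fun u => x + x - κ (x + x - u)) := by
  refine ⟨?_, ?_, by simp [h2]⟩
  · refine Isometry.of_dist_eq fun a b => ?_
    rw [dist_eq_norm, dist_eq_norm]
    have : x + x - κ (x + x - a) - (x + x - κ (x + x - b))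
        = κ (x + x - b) - κ (x + x - a) := by abel
    rw [this, hκ.norm_sub]
    congr 1
    abel
  · intro y
    obtain ⟨z, hz⟩ := hκ.surj (x + x - y)
    refine ⟨x + x - z, ?_⟩
    simp [hz]

/-- For `f` as above, `k` a self-isometry and `x`, two further self-isometries. -/
theorem exists_pair {F : Type*} [NormedAddCommGroup F] {g : E → F} (hg : IsIso0 g)
    {k : E → E} (hk : IsIso0 k) (x : E) :
    ∃ k₁ k₂ : E → E, IsIso0 k₁ ∧ IsIso0 k₂ ∧ k₂ x = k x + k x - k₁ x ∧
      g (k₁ x) = g (k x + k x) - g (k x) := by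
  obtain ⟨κ, hκ, hκ2, hκg⟩ := exists_kappa hg (k x)
  refine ⟨fun u => κ (k u), fun u => k x + k x - κ (k x + k x - k u), hκ.comp hk,
    (hκ.conj hκ2).comp hk, ?_, ?_⟩
  · simp
  · have := hκg (k x)
    simpa using this

theorem exists_quad {F : Type*} [NormedAddCommGroup F] {f : E → F} (hf : IsIso0 f) (x : E)
    (k : {k : E → E // IsIso0 k}) :
    ∃ s : Fin 4 → {k : E → E // IsIso0 k},
      (s 1).1 x = k.1 x + k.1 x - (s 0).1 x ∧
      (s 3).1 x = k.1 x + k.1 x - (s 2).1 x ∧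
      ∀ j : E → E, IsIso0 j → (∀ u, j (k.1 u) = u) → (∀ u, k.1 (j u) = u) →
        (j ((s 0).1 x) = j (k.1 x + k.1 x) - x) ∧
        (f (j ((s 2).1 x)) = f (j (k.1 x + k.1 x)) - f x) := by
  obtain ⟨j, hj, hjk, hkj⟩ := k.2.exists_inv
  obtain ⟨a, b, ha, hb, hab, haj⟩ := exists_pair hj k.2 x
  obtain ⟨c, d, hc, hd, hcd, hcj⟩ := exists_pair (hf.comp hj) k.2 x
  refine ⟨![⟨a, ha⟩, ⟨b, hb⟩, ⟨c, hc⟩, ⟨d, hd⟩], ?_, ?_, ?_⟩
  · simpa using hab
  · simpa using hcd
  · intro j' hj' hjk' hkj'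
    have hjj : j' = j := by
      funext u
      have h1 := hjk' (j u)
      rwa [hkj u] at h1
    subst hjj
    constructor
    · have := haj
      rw [hjk] at this
      simpa using this
    · have := hcj
      simp only [hjk] at this
      simpa using this

/-- Countable version of the almost-extreme-point criterion. -/
theorem double_eq_count {F : Type*} [NormedAddCommGroup F]
    (hE : ∀ x : E, ∀ T : Set E, T ⊆ orb x → T.Countable → T.Nonempty → ∀ ε > 0,
      ∃ x' ∈ T, ∀ t ∈ T, x' + x' - t ∈ T → ‖t - x'‖ < ε)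
    {f : E → F} (hf : IsIso0 f) (x : E) : f (x + x) = f x + f x := by
  choose s hs1 hs3 hsj using exists_quad hf x
  let K : List (Fin 4) → {k : E → E // IsIso0 k} :=
    fun l => l.foldr (fun i k => s k i) ⟨fun x => x, IsIso0.id⟩
  have hKcons : ∀ i l, K (i :: l) = s (K l) i := fun i l => rfl
  let T : Set E := Set.range (fun l => (K l).1 x)
  have hTorb : T ⊆ orb x := by
    rintro _ ⟨l, rfl⟩
    exact ⟨(K l).1, (K l).2, rfl⟩
  have hTc : T.Countable := Set.countable_range _
  have hTn : T.Nonempty := ⟨_, ⟨[], rfl⟩⟩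
  have key : ∀ ε > 0, ‖f (x + x) - (f x + f x)‖ ≤ 2 * ε := by
    intro ε hε
    obtain ⟨_, ⟨l, rfl⟩, hx'⟩ := hE x T hTorb hTc hTn ε hε
    simp only at hx'
    set k := K l with hk
    obtain ⟨j, hj, hjk, hkj⟩ := k.2.exists_inv
    obtain ⟨e1, e2⟩ := hsj k j hj hjk hkj
    have m0 : (s k 0).1 x ∈ T := ⟨0 :: l, rfl⟩
    have m1 : k.1 x + k.1 x - (s k 0).1 x ∈ T := by
      rw [← hs1]; exact ⟨1 :: l, rfl⟩
    have m2 : (s k 2).1 x ∈ T := ⟨2 :: l, rfl⟩
    have m3 : k.1 x + k.1 x - (s k 2).1 x ∈ T := by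
      rw [← hs3]; exact ⟨3 :: l, rfl⟩
    have h1 := hx' _ m0 m1
    have h2 := hx' _ m2 m3
    -- translate
    have h1' : ‖j (k.1 x + k.1 x) - (x + x)‖ < ε := by
      rw [← hj.norm_sub, e1, hjk] at h1
      rwa [← sub_sub]
    have h2' : ‖f (j (k.1 x + k.1 x)) - (f x + f x)‖ < ε := by
      rw [← (hf.comp hj).norm_sub, e2, hjk] at h2
      rwa [← sub_sub]
    have h3 : ‖f (x + x) - f (j (k.1 x + k.1 x))‖ < ε := by
      rw [hf.norm_sub, norm_sub_rev]
      exact h1'
    calc ‖f (x + x) - (f x + f x)‖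
        = ‖(f (x + x) - f (j (k.1 x + k.1 x))) + (f (j (k.1 x + k.1 x)) - (f x + f x))‖ := by
          congr 1; abel
      _ ≤ ‖f (x + x) - f (j (k.1 x + k.1 x))‖ + ‖f (j (k.1 x + k.1 x)) - (f x + f x)‖ :=
          norm_add_le _ _
      _ ≤ 2 * ε := by linarith
  have h0 : ‖f (x + x) - (f x + f x)‖ ≤ 0 := by
    refine le_of_forall_pos_le_add fun ε hε => ?_
    have := key (ε / 2) (by positivity)
    linarith
  exact sub_eq_zero.mp (norm_le_zero_iff.mp h0)

end count

section linear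

variable {E F : Type*} [NormedAddCommGroup E] [Module ℝ E] [ContinuousSMul ℝ E]
  [NormedAddCommGroup F] [Module ℝ F] [ContinuousSMul ℝ F]

/-- If all maps of this kind preserve doubles then they are linear. -/
theorem linear_of_double
    (hE : ∀ g : E → F, IsIso0 g → ∀ x, g (x + x) = g x + g x)
    (f : E → F) (hf : Isometry f) (hs : Function.Surjective f) (h0 : f 0 = 0) :
    ∃ g : E →ₗ[ℝ] F, ∀ x : E, g x = f x := by
  have hF : IsIso0 f := ⟨hf, hs, h0⟩
  have hdouble : ∀ x, f (x + x) = f x + f x := hE f hF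
  have hadd : ∀ a b, f (a + b) = f a + f b := by
    intro a b
    set h : E := (1 / 2 : ℝ) • (b - a) with hh
    have hhh : h + h = b - a := by
      rw [hh, ← add_smul]; norm_num
    have h1 := hE _ (hF.diff a) h
    rw [hhh] at h1
    have h2 : f b = f (a + h) + f (a + h) - f a := by
      have : a + (b - a) = b := by abel
      rw [this] at h1
      calc f b = (f b - f a) + f a := by abel
        _ = _ := by rw [h1]; abel
    have h3 : a + b = (a + h) + (a + h) := by
      calc a + b = a + a + (b - a) := by abel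
        _ = a + a + (h + h) := by rw [hhh]
        _ = _ := by abel
    rw [h3, hdouble, h2]
    abel
  let φ : E →+ F := { toFun := f, map_zero' := h0, map_add' := hadd }
  have hφ : Continuous φ := hf.continuous
  exact ⟨(φ.toRealLinearMap hφ : E →L[ℝ] F), fun x => rfl⟩

theorem core_count
    (hE : ∀ x : E, ∀ T : Set E, T ⊆ orb x → T.Countable → T.Nonempty → ∀ ε > 0,
      ∃ x' ∈ T, ∀ t ∈ T, x' + x' - t ∈ T → ‖t - x'‖ < ε)
    (f : E → F) (hf : Isometry f) (hs : Function.Surjective f) (h0 : f 0 = 0) :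
    ∃ g : E →ₗ[ℝ] F, ∀ x : E, g x = f x :=
  linear_of_double (fun _ hg x => double_eq_count hE hg x) f hf hs h0

end linear

end Pool.Agent.H277.MU
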