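import Mathlib

set_option autoImplicit false

open Topology Pointwise Set

namespace Pool.Agent.H277.NA

variable {W : Type*} [AddCommGroup W] [Module ℝ W] [TopologicalSpace W]
  [IsTopologicalAddGroup W] [ContinuousSMul ℝ W] [LocallyConvexSpace ℝ W]

/-- closed subsets generating `C` -/
def Gen (C A : Set W) : Prop := IsClosed A ∧ A ⊆ C ∧ C ⊆ closure (convexHull ℝ A)

theorem exists_minimal {C : Set W} (hC : IsCompact C) (hCcl : IsClosed C) (hCc : Convex ℝ C) :
    ∃ A, Gen C A ∧ ∀ B, Gen C B → B ⊆ A → B = A := by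
  have hCgen : Gen C C := by
    refine ⟨hCcl, subset_rfl, ?_⟩
    rw [hCc.convexHull_eq]
    exact subset_closure
  have H : ∀ c ⊆ {A | Gen C A}, IsChain (· ⊆ ·) c → c.Nonempty →
      ∃ lb ∈ {A | Gen C A}, ∀ s ∈ c, lb ⊆ s := by
    intro c hcS hcc hcn
    refine ⟨⋂₀ c, ⟨isClosed_sInter fun A hA => (hcS hA).1, ?_, ?_⟩, fun s hs => sInter_subset_of_mem hs⟩
    · obtain ⟨A, hA⟩ := hcn
      exact (sInter_subset_of_mem hA).trans (hcS hA).2.1
    · intro x hx
      by_contra hxn
      have hcl : IsClosed (closure (convexHull ℝ (⋂₀ c))) := isClosed_closure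
      have hcv : Convex ℝ (closure (convexHull ℝ (⋂₀ c))) := (convex_convexHull ℝ _).closure
      obtain ⟨f, u, hfu, hux⟩ := geometric_hahn_banach_closed_point hcv hcl hxn
      -- sets A ∩ {u ≤ f}
      have hne : ∀ A ∈ c, (A ∩ {y | u ≤ f y}).Nonempty := by
        intro A hA
        by_contra hemp
        rw [not_nonempty_iff_eq_empty] at hemp
        have h1 : A ⊆ {y | f y ≤ u} := by
          intro y hy
          by_contra hyn
          have hyn' : u < f y := by
            by_contra h'
            exact hyn (not_lt.mp h')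
          have : y ∈ A ∩ {y | u ≤ f y} := ⟨hy, hyn'.le⟩
          rw [hemp] at this
          exact this
        have h2 : closure (convexHull ℝ A) ⊆ {y | f y ≤ u} := by
          refine closure_minimal (convexHull_min h1 ?_) ?_
          · exact (convex_Iic u).linear_preimage f.toLinearMap
          · exact isClosed_le f.continuous continuous_const
        exact absurd (h2 ((hcS hA).2.2 hx)) (not_le.mpr hux)
      have : Nonempty c := hcn.to_subtype
      have hdir : Directed (fun a b : Set W => a ⊇ b)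
          (fun A : c => (A : Set W) ∩ {y | u ≤ f y}) := by
        intro A B
        rcases hcc.total A.2 B.2 with h | h
        · exact ⟨A, subset_rfl, inter_subset_inter_left _ h⟩
        · exact ⟨B, inter_subset_inter_left _ h, subset_rfl⟩
      have hcomp : ∀ A : c, IsCompact ((A : Set W) ∩ {y | u ≤ f y}) := by
        intro A
        have hAc : IsCompact (A : Set W) := hC.of_isClosed_subset (hcS A.2).1 (hcS A.2).2.1
        exact hAc.inter_right (isClosed_le continuous_const f.continuous)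
      have hclosed : ∀ A : c, IsClosed ((A : Set W) ∩ {y | u ≤ f y}) := by
        intro A
        exact (hcS A.2).1.inter (isClosed_le continuous_const f.continuous)
      obtain ⟨y, hy⟩ := IsCompact.nonempty_iInter_of_directed_nonempty_isCompact_isClosed
        (fun A : c => (A : Set W) ∩ {y | u ≤ f y}) hdir (fun A => hne A A.2) hcomp hclosed
      rw [mem_iInter] at hy
      have hyc : y ∈ ⋂₀ c := by
        rw [mem_sInter]
        intro A hA
        exact (hy ⟨A, hA⟩).1
      have h3 : f y < u := hfu y (subset_closure (subset_convexHull ℝ _ hyc))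
      obtain ⟨A0⟩ := (inferInstance : Nonempty c)
      exact absurd (hy A0).2 (not_le.mpr h3)
  obtain ⟨m, hmC, hm⟩ := zorn_superset_nonempty {A | Gen C A} H C hCgen
  exact ⟨m, hm.1, fun B hB hBm => (hm.eq_of_superset hB hBm).symm⟩

variable [T2Space W]

omit [LocallyConvexSpace ℝ W] [T2Space W] in
theorem isCompact_join {A B : Set W} (hA : IsCompact A) (hB : IsCompact B) :
    IsCompact (convexJoin ℝ A B) := by
  have h : convexJoin ℝ A B =
      (fun p : (ℝ × W) × W => p.1.1 • p.1.2 + (1 - p.1.1) • p.2) '' ((Icc (0 : ℝ) 1 ×ˢ A) ×ˢ B) := by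
    ext x
    rw [mem_convexJoin]
    constructor
    · rintro ⟨a, ha, b, hb, s, t, hs, ht, hst, rfl⟩
      refine ⟨((s, a), b), ⟨⟨⟨hs, by linarith⟩, ha⟩, hb⟩, ?_⟩
      have : 1 - s = t := by linarith
      simp [this]
    · rintro ⟨⟨⟨s, a⟩, b⟩, ⟨⟨⟨hs, hs1⟩, ha⟩, hb⟩, rfl⟩
      exact ⟨a, ha, b, hb, s, 1 - s, hs, by simpa using hs1, by ring, rfl⟩
  rw [h]
  refine ((isCompact_Icc.prod hA).prod hB).image ?_
  fun_prop

theorem small_slice {C : Set W} (hC : IsCompact C) (hCc : Convex ℝ C) (hne : C.Nonempty)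
    {V : Set W} (hVc : Convex ℝ V) (hVcl : IsClosed V) (h0 : (0 : W) ∈ V) (w : ℕ → W)
    (hcov : ∀ x ∈ C, ∃ n, x - w n ∈ V) {r : ℝ} (hr : 0 < r) (hr1 : r < 1)
    (hrV : ∀ a ∈ C, ∀ b ∈ C, r • (a - b) ∈ V) :
    ∃ ξ : W →L[ℝ] ℝ, ∃ α : ℝ, ∃ w0 : W, (∃ x ∈ C, α < ξ x) ∧
      ∀ x ∈ C, α < ξ x → x - w0 ∈ V + V := by
  obtain ⟨A, hA, hmin⟩ := exists_minimal hC hC.isClosed hCc
  obtain ⟨hAcl, hAC, hCA⟩ := hA
  have hAc : IsCompact A := hC.of_isClosed_subset hAcl hAC
  have hAne : A.Nonempty := by
    by_contra h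
    rw [not_nonempty_iff_eq_empty] at h
    rw [h, convexHull_empty, closure_empty] at hCA
    exact hne.not_subset_empty hCA
  -- translates of V
  have hwV : ∀ n, Convex ℝ {x | x - w n ∈ V} ∧ IsClosed {x | x - w n ∈ V} := by
    intro n
    constructor
    · have h1 : {x | x - w n ∈ V} = w n +ᵥ V := by
        ext x
        rw [mem_vadd_set_iff_neg_vadd_mem]
        simp [sub_eq_neg_add]
      rw [h1]
      exact hVc.vadd (w n)
    · exact hVcl.preimage (continuous_id.sub continuous_const)
  -- Baire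
  have : CompactSpace A := isCompact_iff_compactSpace.mp hAc
  have : Nonempty A := hAne.to_subtype
  obtain ⟨n, hn⟩ : ∃ n, (interior {a : A | (a : W) - w n ∈ V}).Nonempty := by
    refine nonempty_interior_of_iUnion_of_closed (fun n => ?_) ?_
    · exact (hwV n).2.preimage continuous_subtype_val
    · rw [eq_univ_iff_forall]
      intro a
      obtain ⟨n, hn⟩ := hcov a (hAC a.2)
      exact mem_iUnion.mpr ⟨n, hn⟩
  obtain ⟨a0, ha0⟩ := hn
  obtain ⟨U', hU'sub, hU'open, ha0U'⟩ := mem_interior.mp ha0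
  obtain ⟨U, hUopen, rfl⟩ := isOpen_induced_iff.mp hU'open
  have hAU : ∀ x ∈ A, x ∈ U → x - w n ∈ V := fun x hx hxU => @hU'sub ⟨x, hx⟩ hxU
  -- the two pieces
  set B : Set W := A \ U with hB
  set C₁ : Set W := closure (convexHull ℝ B) with hC₁
  set C₂ : Set W := closure (convexHull ℝ (A ∩ U)) with hC₂
  have hC₁C : C₁ ⊆ C := closure_minimal (convexHull_min (sdiff_subset.trans hAC) hCc) hC.isClosed
  have hC₂C : C₂ ⊆ C := closure_minimal (convexHull_min (inter_subset_left.trans hAC) hCc) hC.isClosed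
  have hC₂V : ∀ x ∈ C₂, x - w n ∈ V := by
    have : C₂ ⊆ {x | x - w n ∈ V} :=
      closure_minimal (convexHull_min (fun x hx => hAU x hx.1 hx.2) (hwV n).1) (hwV n).2
    exact this
  have hC₁cv : Convex ℝ C₁ := (convex_convexHull ℝ _).closure
  have hC₂cv : Convex ℝ C₂ := (convex_convexHull ℝ _).closure
  have hC₁cp : IsCompact C₁ := hC.of_isClosed_subset isClosed_closure hC₁C
  have hC₂cp : IsCompact C₂ := hC.of_isClosed_subset isClosed_closure hC₂C
  have hBcl : IsClosed B := hAcl.sdiff hUopen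
  have hne1 : ¬ C ⊆ C₁ := by
    intro h
    have hBA : B = A := hmin B ⟨hBcl, sdiff_subset.trans hAC, h⟩ sdiff_subset
    have : (a0 : W) ∈ B := by rw [hBA]; exact a0.2
    exact this.2 ha0U'
  by_cases hBne : B.Nonempty
  · have hC₁ne : C₁.Nonempty := hBne.mono ((subset_convexHull ℝ _).trans subset_closure)
    have hC₂ne : C₂.Nonempty :=
      ⟨a0, subset_closure (subset_convexHull ℝ _ ⟨a0.2, ha0U'⟩)⟩
    have hJ : C ⊆ convexJoin ℝ C₁ C₂ := by
      refine hCA.trans (closure_minimal (convexHull_min ?_ (hC₁cv.convexJoin hC₂cv)) ?_)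
      · intro x hx
        by_cases hxU : x ∈ U
        · exact subset_convexJoin_right hC₁ne (subset_closure (subset_convexHull ℝ _ ⟨hx, hxU⟩))
        · exact subset_convexJoin_left hC₂ne (subset_closure (subset_convexHull ℝ _ ⟨hx, hxU⟩))
      · exact (isCompact_join hC₁cp hC₂cp).isClosed
    set D : Set W := r • C₁ + (1 - r) • C with hD
    have hDcv : Convex ℝ D := (hC₁cv.smul r).add (hCc.smul (1 - r))
    have hDcp : IsCompact D := (hC₁cp.smul r).add (hC.smul (1 - r))
    have hDC : ¬ C ⊆ D := by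
      intro h
      apply hne1
      have hext : C.extremePoints ℝ ⊆ C₁ := by
        intro e he
        obtain ⟨_, ⟨c, hc, rfl⟩, _, ⟨x, hx, rfl⟩, hcx⟩ := h he.1
        have hcx' : r • c + (1 - r) • x = e := hcx
        have := he.2 (hC₁C hc) hx ⟨r, 1 - r, hr, by linarith, by ring, hcx'⟩
        rwa [← this]
      rw [← closure_convexHull_extremePoints hC hCc]
      exact closure_minimal (convexHull_min hext hC₁cv) isClosed_closure
    obtain ⟨x0, hx0C, hx0D⟩ := not_subset.mp hDC
    obtain ⟨f, u, hfu, hux⟩ := geometric_hahn_banach_closed_point hDcv hDcp.isClosed hx0D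
    refine ⟨f, u, w n, ⟨x0, hx0C, hux⟩, fun x hxC hxu => ?_⟩
    have hxD : x ∉ D := fun h => absurd (hfu x h) (not_lt.mpr hxu.le)
    obtain ⟨a, ha, b, hb, s, t, hs, ht, hst, hab⟩ := mem_convexJoin.mp (hJ hxC)
    have hsr : s < r := by
      by_contra hsr
      push Not at hsr
      apply hxD
      have h1r : 0 < 1 - r := by linarith
      have hmem : ((s - r) / (1 - r)) • a + (t / (1 - r)) • b ∈ C := by
        refine hCc (hC₁C ha) (hC₂C hb) (div_nonneg (by linarith) h1r.le) (div_nonneg ht h1r.le) ?_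
        rw [← add_div, div_eq_one_iff_eq h1r.ne']
        linarith
      refine ⟨r • a, ⟨a, ha, rfl⟩, (1 - r) • (((s - r) / (1 - r)) • a + (t / (1 - r)) • b),
        ⟨_, hmem, rfl⟩, ?_⟩
      rw [← hab, smul_add, smul_smul, smul_smul, mul_div_cancel₀ _ h1r.ne',
        mul_div_cancel₀ _ h1r.ne']
      change r • a + ((s - r) • a + t • b) = s • a + t • b
      rw [← add_assoc, ← add_smul]
      congr 2
      ring
    have h1 : x - b ∈ V := by
      have h2 : x - b = (s / r) • (r • (a - b)) := by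
        rw [smul_smul, div_mul_cancel₀ _ hr.ne', ← hab, smul_sub]
        have : t = 1 - s := by linarith
        rw [this, sub_smul, one_smul]
        abel
      rw [h2]
      refine hVc.smul_mem_of_zero_mem h0 (hrV a (hC₁C ha) b (hC₂C hb)) ⟨by positivity, ?_⟩
      rw [div_le_one hr]
      exact hsr.le
    refine ⟨x - b, h1, b - w n, hC₂V b hb, by abel_nf⟩
  · rw [not_nonempty_iff_eq_empty] at hBne
    have hAU' : A ⊆ {x | x - w n ∈ V} := by
      intro x hx
      refine hAU x hx ?_
      by_contra hxU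
      have : x ∈ B := ⟨hx, hxU⟩
      rw [hBne] at this
      exact this
    have hCV : C ⊆ {x | x - w n ∈ V} :=
      hCA.trans (closure_minimal (convexHull_min hAU' (hwV n).1) (hwV n).2)
    obtain ⟨x, hx⟩ := hne
    refine ⟨0, -1, w n, ⟨x, hx, by simp⟩, fun y hy _ => ?_⟩
    exact ⟨y - w n, hCV hy, 0, h0, by simp⟩

end Pool.Agent.H277.NA
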